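import Pool.Agent.Q39.ST.Main

/-!
MP_1e7c4a_ag, Q2, negative answer: divisibility of the Hilbert series of the Solomon-Terao algebras
does not imply divisibility of the Poincaré polynomials.

The definitions are in `Pool/Agent/Q39/ST/Defs.lean`.
-/

set_option autoImplicit false

namespace Pool.Agent.Results.MP_1e7c4a_ag.ConverseFails

open MvPolynomial Pool.Agent.Q39.ST

universe u

/-- Over every algebraically closed field `K` of characteristic zero there are an arrangement `A` in
`K^3`, a plane `H ∈ A` and a quadratic form `η ∈ U_2(A)` such that the Hilbert series `QH` of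
`ST(A^H, η|_H)` divides the Hilbert series `Q` of `ST(A, η)`, while the Poincaré polynomial `PH` of
`A^H` does not divide the Poincaré polynomial `P` of `A`. -/
theorem result (K : Type u) [Field K] [IsAlgClosed K] [CharZero K] :
    ∃ (A : Finset (Submodule K (Fin 3 → K))) (H : Submodule K (Fin 3 → K))
      (e : (Fin 2 → K) ≃ₗ[K] H) (η : MvPolynomial (Fin 3) K),
      IsArr A ∧ H ∈ A ∧ U2 A η ∧
      ∃ P PH Q QH : Polynomial ℚ,
        IsPoincare A P ∧ IsPoincare (restrArr A H e) PH ∧
        IsHilb A η Q ∧ IsHilb (restrArr A H e) (restrPoly H e η) QH ∧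
        QH ∣ Q ∧ ¬ PH ∣ P := by
  refine ⟨modelA.arr K, modelA.h K 0, coordH K, eta K, isArrA, memA, u2A, _, _, _, _, poinA, ?_,
    isHilbA, ?_, dvd_AB, not_dvd_AB⟩
  · rw [restrArr_eq]
    exact poinB
  · rw [restrArr_eq, restrPoly_eq]
    exact isHilbB

end Pool.Agent.Results.MP_1e7c4a_ag.ConverseFails
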